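import Pool.Agent.H274R2.Assem

/-!
MP_a29564_gt (Hopf sign conjecture), dimension six, positive curvature.  For every algebraic
curvature tensor on `ℝ⁶` whose sectional curvatures lie in `[m, M]` with `m ≥ (57/250) M > 0`, the
Gauss-Bonnet-Chern integrand, written as the alternating double sum over permutations, is at least
`M ^ 3 / 10`.  (The negative half is handed in under MP_342787_gt.)

Sign convention: `R a b a b` is the sectional curvature of the plane of `e_a, e_b`.
-/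

namespace Pool.Agent.Results.MP_a29564_gt.PositivelyPinchedSix

open Pool.Agent.H274R2

theorem result (R : Fin 6 → Fin 6 → Fin 6 → Fin 6 → ℝ)
    -- `R` is an algebraic curvature tensor
    (h1 : ∀ a b c d, R b a c d = - R a b c d)
    (h2 : ∀ a b c d, R a b d c = - R a b c d)
    (h3 : ∀ a b c d, R c d a b = R a b c d)
    (h4 : ∀ a b c d, R a b c d + R b c a d + R c a b d = 0)
    -- the sectional curvatures of `R` lie in `[m, M]`
    (m M : ℝ)
    (hlow : ∀ x y : Fin 6 → ℝ,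
      m * ((∑ a, x a ^ 2) * (∑ a, y a ^ 2) - (∑ a, x a * y a) ^ 2) ≤
        ∑ a, ∑ b, ∑ c, ∑ d, R a b c d * x a * y b * x c * y d)
    (hupp : ∀ x y : Fin 6 → ℝ,
      ∑ a, ∑ b, ∑ c, ∑ d, R a b c d * x a * y b * x c * y d ≤
        M * ((∑ a, x a ^ 2) * (∑ a, y a ^ 2) - (∑ a, x a * y a) ^ 2))
    -- pinching
    (hM : 0 < M) (hm : 57 / 250 * M ≤ m) :
    M ^ 3 / 10 ≤ ∑ σ : Equiv.Perm (Fin 6), ∑ τ : Equiv.Perm (Fin 6),
      ((Equiv.Perm.sign σ : ℤ) : ℝ) * ((Equiv.Perm.sign τ : ℤ) : ℝ) *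
        (R (σ 0) (σ 1) (τ 0) (τ 1) * R (σ 2) (σ 3) (τ 2) (τ 3) *
          R (σ 4) (σ 5) (τ 4) (τ 5)) := by
  have hc : IsCurv R := ⟨h1, h2, h3, h4⟩
  have hl : LB R m := fun x y => hlow x y
  have hu : UB R M := fun x y => hupp x y
  have key := gb_pos hc hM hm hl hu
  have hM3 : 0 < M ^ 3 := by positivity
  unfold gb at key
  linarith

end Pool.Agent.Results.MP_a29564_gt.PositivelyPinchedSix
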